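import Mathlib

set_option autoImplicit false

/-!
# MP_d2819f_an: the slit condition does not make the subdisc images vertically convex

The domain `G_1` is the complement of a closed quadrant `{Re w ≥ b, Im w ≤ T}` with `b, T > 0`
(up to the factor `3150`: `b = 11753/8`, `T = 1287`). It is convex in the direction of the imaginary
axis, and it is cut by the real axis into two pieces, both having `0` on their boundary. The conformal
map is `f z = (w0 + η(z)^3)/3150`, where `η(z)` is the square root (in the first quadrant) of a Moebius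
map `g(z)` of the unit disc onto the upper half-plane. For `r = 57/80` the image of `|z| < r` contains
the points of the vertical line `Re = c` which correspond to `η = 1 + 10 i` and `η = 13 + 8 i`, but not
the point in between which corresponds to `η = 4 + 11 i / 2`: all three have `Re (η^3) = -299`.
-/

namespace Pool.Agent.Results.MP_d2819f_an.SubdiscNotCIA

open Complex Metric Set

/-- `G` is convex in the direction of the imaginary axis: every vertical line meets `G` in a
connected (possibly empty) set. -/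
def CIA (G : Set ℂ) : Prop := ∀ c : ℝ, IsPreconnected (G ∩ {w : ℂ | w.re = c})

/-- The slit condition `G \ ℝ = G' ∪ G''`: every connected component of `G \ ℝ` has the origin on its
boundary. -/
def SlitCondition (G : Set ℂ) : Prop :=
  ∀ w ∈ G \ {w : ℂ | w.im = 0},
    (0 : ℂ) ∈ frontier (connectedComponentIn (G \ {w : ℂ | w.im = 0}) w)

/-- Unimodular constant. -/
noncomputable def u : ℂ := ⟨-24 / 25, -7 / 25⟩

/-- `g(0)`. -/
noncomputable def g0 : ℂ := ⟨-527 / 4, 84⟩

/-- The corner of the quadrant is `w0 / 3150`. -/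
noncomputable def w0 : ℂ := ⟨11753 / 8, 1287⟩

/-- Moebius map of the unit disc onto the upper half-plane. -/
noncomputable def g (z : ℂ) : ℂ := (-527 / 4 : ℂ) + 84 * I * ((1 + u * z) / (1 - u * z))

/-- Its square root. -/
noncomputable def eta (z : ℂ) : ℂ := (g z) ^ (2⁻¹ : ℂ)

/-- The conformal map. -/
noncomputable def f (z : ℂ) : ℂ := (w0 + eta z ^ 3) / 3150

theorem norm_u : ‖u‖ = 1 := by
  have h : ‖u‖ ^ 2 = 1 := by
    rw [← normSq_eq_norm_sq]
    unfold u
    rw [normSq_mk]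
    norm_num
  have h0 : 0 ≤ ‖u‖ := norm_nonneg _
  nlinarith

theorem u_ne : u ≠ 0 := by
  intro h
  have := norm_u
  rw [h] at this
  simp at this

theorem one_sub_ne {ζ : ℂ} (h : ‖ζ‖ < 1) : 1 - ζ ≠ 0 := by
  intro h1
  have h2 : ζ = 1 := (sub_eq_zero.mp h1).symm
  rw [h2] at h
  simp at h

theorem norm_uz {z : ℂ} (hz : ‖z‖ < 1) : ‖u * z‖ < 1 := by
  rw [norm_mul, norm_u, one_mul]; exact hz

theorem cayley_re {ζ : ℂ} (h : ‖ζ‖ < 1) : 0 < ((1 + ζ) / (1 - ζ)).re := by
  have h1 := one_sub_ne h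
  have h2 : 0 < normSq (1 - ζ) := normSq_pos.mpr h1
  rw [div_re]
  have h3 : (1 + ζ).re * (1 - ζ).re / normSq (1 - ζ) + (1 + ζ).im * (1 - ζ).im / normSq (1 - ζ) =
      (1 - normSq ζ) / normSq (1 - ζ) := by
    rw [← add_div]
    congr 1
    simp only [add_re, sub_re, add_im, sub_im, one_re, one_im, normSq_apply]
    ring
  rw [h3]
  apply div_pos _ h2
  rw [normSq_eq_norm_sq]
  have : 0 ≤ ‖ζ‖ := norm_nonneg _
  nlinarith

theorem g_im {z : ℂ} (hz : ‖z‖ < 1) : 0 < (g z).im := by
  have h := cayley_re (norm_uz hz)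
  unfold g
  have e1 : (-527 / 4 : ℂ) = ((-527 / 4 : ℝ) : ℂ) := by push_cast; ring
  rw [e1, add_im, ofReal_im, mul_assoc]
  simp only [mul_im, I_re, I_im, re_ofNat, im_ofNat]
  simp only [mul_re, I_re, I_im]
  linarith

theorem g_slit {z : ℂ} (hz : ‖z‖ < 1) : g z ∈ slitPlane := Or.inr (g_im hz).ne'

theorem eta_sq (z : ℂ) : eta z ^ 2 = g z := by
  unfold eta
  simp

theorem sqrt_re {x : ℂ} (hx : 0 < x.im) : 0 < (x ^ (2⁻¹ : ℂ)).re := by
  rw [cpow_inv_two_re]
  apply Real.sqrt_pos.mpr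
  have h1 : |x.re| < ‖x‖ := abs_re_lt_norm.mpr hx.ne'
  have h2 := neg_abs_le x.re
  linarith

theorem sqrt_im {x : ℂ} (hx : 0 < x.im) : 0 < (x ^ (2⁻¹ : ℂ)).im := by
  rw [cpow_inv_two_im_eq_sqrt hx.le]
  apply Real.sqrt_pos.mpr
  have h1 : |x.re| < ‖x‖ := abs_re_lt_norm.mpr hx.ne'
  have h2 := le_abs_self x.re
  linarith

theorem eta_re {z : ℂ} (hz : ‖z‖ < 1) : 0 < (eta z).re := sqrt_re (g_im hz)

theorem eta_im {z : ℂ} (hz : ‖z‖ < 1) : 0 < (eta z).im := sqrt_im (g_im hz)

/-- Square roots in the first quadrant are unique. -/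
theorem sq_inj {a b : ℂ} (ha : 0 < a.re) (hb : 0 < b.re) (h : a ^ 2 = b ^ 2) : a = b := by
  have h1 : (a - b) * (a + b) = 0 := by linear_combination h
  rcases mul_eq_zero.mp h1 with h2 | h2
  · exact sub_eq_zero.mp h2
  · exfalso
    have := congrArg Complex.re h2
    simp at this
    linarith

theorem cube_inj {a b : ℂ} (ha : 0 < a.re) (ha' : 0 < a.im) (hb : 0 < b.re) (hb' : 0 < b.im)
    (h : a ^ 3 = b ^ 3) : a = b := by
  have h1 : (a - b) * (a ^ 2 + a * b + b ^ 2) = 0 := by linear_combination h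
  rcases mul_eq_zero.mp h1 with h2 | h2
  · exact sub_eq_zero.mp h2
  · exfalso
    have h3 := congrArg Complex.im h2
    simp only [add_im, mul_im, pow_two, zero_im] at h3
    have := mul_pos ha ha'
    have := mul_pos hb hb'
    have := mul_pos ha hb'
    have := mul_pos ha' hb
    linarith

/-- The inverse Moebius map. -/
noncomputable def gi (x : ℂ) : ℂ := u⁻¹ * ((x - g0) / (x - (starRingEnd ℂ) g0))

theorem den_ne {x : ℂ} (hx : 0 < x.im) : x - (starRingEnd ℂ) g0 ≠ 0 := by
  intro h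
  have := congrArg Complex.im h
  simp [g0] at this
  linarith

theorem norm_gi_sq (x : ℂ) : ‖gi x‖ ^ 2 =
    ((x.re + 527 / 4) ^ 2 + (x.im - 84) ^ 2) / ((x.re + 527 / 4) ^ 2 + (x.im + 84) ^ 2) := by
  unfold gi
  rw [norm_mul, norm_inv, norm_u, inv_one, one_mul, norm_div, div_pow, ← normSq_eq_norm_sq,
    ← normSq_eq_norm_sq]
  congr 1
  · rw [normSq_apply]; simp [g0]; ring
  · rw [normSq_apply]; simp [g0]; ring

theorem norm_gi_lt {x : ℂ} (hx : 0 < x.im) : ‖gi x‖ < 1 := by
  have h1 := norm_gi_sq x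
  have h2 : ((x.re + 527 / 4) ^ 2 + (x.im - 84) ^ 2) / ((x.re + 527 / 4) ^ 2 + (x.im + 84) ^ 2) < 1 := by
    rw [div_lt_one (by positivity)]
    nlinarith
  rw [← h1] at h2
  have : 0 ≤ ‖gi x‖ := norm_nonneg _
  nlinarith

theorem g_gi {x : ℂ} (hx : 0 < x.im) : g (gi x) = x := by
  have h1 := den_ne hx
  have h2 : u * gi x = (x - g0) / (x - (starRingEnd ℂ) g0) := by
    unfold gi
    rw [← mul_assoc, mul_inv_cancel₀ u_ne, one_mul]
  unfold g
  rw [h2]
  have h3 : (starRingEnd ℂ) g0 = -527 / 4 - 84 * I := by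
    apply Complex.ext <;> simp [g0]
  have h4 : g0 = -527 / 4 + 84 * I := by
    apply Complex.ext <;> simp [g0]
  rw [h3] at h1 ⊢
  rw [h4]
  have h5 : 1 - (x - (-527 / 4 + 84 * I)) / (x - (-527 / 4 - 84 * I)) =
      168 * I / (x - (-527 / 4 - 84 * I)) := by
    rw [eq_div_iff h1, sub_mul, div_mul_cancel₀ _ h1]
    ring
  have h6 : 1 + (x - (-527 / 4 + 84 * I)) / (x - (-527 / 4 - 84 * I)) =
      (2 * x + 527 / 2) / (x - (-527 / 4 - 84 * I)) := by
    rw [eq_div_iff h1, add_mul, div_mul_cancel₀ _ h1]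
    ring
  rw [h5, h6, div_div_div_cancel_right₀ h1]
  have hI : I ≠ 0 := I_ne_zero
  field_simp
  ring

theorem gi_g {z : ℂ} (hz : ‖z‖ < 1) : gi (g z) = z := by
  have h1 := one_sub_ne (norm_uz hz)
  unfold gi
  have h3 : (starRingEnd ℂ) g0 = -527 / 4 - 84 * I := by
    apply Complex.ext <;> simp [g0]
  have h4 : g0 = -527 / 4 + 84 * I := by
    apply Complex.ext <;> simp [g0]
  have h5 : g z - g0 = 168 * I * (u * z) / (1 - u * z) := by
    rw [h4]; unfold g; rw [eq_div_iff h1]
    have : (1 + u * z) / (1 - u * z) * (1 - u * z) = 1 + u * z := div_mul_cancel₀ _ h1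
    linear_combination 84 * I * this
  have h6 : g z - (starRingEnd ℂ) g0 = 168 * I / (1 - u * z) := by
    rw [h3]; unfold g; rw [eq_div_iff h1]
    have : (1 + u * z) / (1 - u * z) * (1 - u * z) = 1 + u * z := div_mul_cancel₀ _ h1
    linear_combination 84 * I * this
  rw [h5, h6, div_div_div_cancel_right₀ h1]
  have hI : I ≠ 0 := I_ne_zero
  have hu := u_ne
  field_simp

theorem f_inj : InjOn f (ball 0 1) := by
  intro z hz w hw h
  have hz' : ‖z‖ < 1 := by simpa using hz
  have hw' : ‖w‖ < 1 := by simpa using hw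
  unfold f at h
  have h1 : eta z ^ 3 = eta w ^ 3 := by
    have h2 : w0 + eta z ^ 3 = w0 + eta w ^ 3 := by
      have := congrArg (· * (3150 : ℂ)) h
      simpa using this
    exact add_left_cancel h2
  have h2 := cube_inj (eta_re hz') (eta_im hz') (eta_re hw') (eta_im hw') h1
  have h3 : g z = g w := by rw [← eta_sq, ← eta_sq, h2]
  rw [← gi_g hz', ← gi_g hw', h3]

/-- The value of `f` at the point corresponding to `η`. -/
theorem f_gi {a : ℂ} (ha : 0 < a.re) (ha' : 0 < a.im) : f (gi (a ^ 2)) = (w0 + a ^ 3) / 3150 := by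
  have h1 : 0 < (a ^ 2).im := by
    rw [pow_two, mul_im]
    have := mul_pos ha ha'
    linarith
  have h2 : eta (gi (a ^ 2)) = a := by
    apply sq_inj (eta_re (norm_gi_lt h1)) ha
    rw [eta_sq, g_gi h1]
  unfold f
  rw [h2]

theorem sq_im {a : ℂ} (ha : 0 < a.re) (ha' : 0 < a.im) : 0 < (a ^ 2).im := by
  rw [pow_two, mul_im]
  have := mul_pos ha ha'
  linarith

/-- The domain `G_1`. -/
def Om : Set ℂ := {w | w.re * 3150 < 11753 / 8 ∨ 1287 < w.im * 3150}

theorem image_f : f '' ball 0 1 = Om := by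
  ext w
  constructor
  · rintro ⟨z, hz, rfl⟩
    have hz' : ‖z‖ < 1 := by simpa using hz
    have h1 := eta_re hz'
    have h2 := eta_im hz'
    set a := eta z with ha
    have h3 : (f z).re * 3150 = 11753 / 8 + (a ^ 3).re := by
      unfold f
      rw [← ha]
      have : (3150 : ℂ) = ((3150 : ℝ) : ℂ) := by norm_num
      rw [this, div_ofReal_re]
      simp [w0]
    have h4 : (f z).im * 3150 = 1287 + (a ^ 3).im := by
      unfold f
      rw [← ha]
      have : (3150 : ℂ) = ((3150 : ℝ) : ℂ) := by norm_num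
      rw [this, div_ofReal_im]
      simp [w0]
    show _ ∨ _
    rw [h3, h4]
    by_contra hcon
    push Not at hcon
    obtain ⟨c1, c2⟩ := hcon
    have e1 : (a ^ 3).re = a.re * (a.re ^ 2 - 3 * a.im ^ 2) := by
      simp only [pow_succ, pow_zero, one_mul, mul_re, mul_im]; ring
    have e2 : (a ^ 3).im = a.im * (3 * a.re ^ 2 - a.im ^ 2) := by
      simp only [pow_succ, pow_zero, one_mul, mul_re, mul_im]; ring
    rw [e1] at c1
    rw [e2] at c2
    have c3 : 0 ≤ a.re ^ 2 - 3 * a.im ^ 2 := by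
      by_contra hh
      push Not at hh
      have := mul_neg_of_pos_of_neg h1 hh
      linarith
    have c4 : 3 * a.re ^ 2 - a.im ^ 2 ≤ 0 := by
      by_contra hh
      push Not at hh
      have := mul_pos h2 hh
      linarith
    have := pow_pos h1 2
    have := pow_pos h2 2
    linarith
  · intro hw
    set W : ℂ := 3150 * w - w0 with hW
    have hWre : W.re = 3150 * w.re - 11753 / 8 := by simp [hW, w0]
    have hWim : W.im = 3150 * w.im - 1287 := by simp [hW, w0]
    have hW1 : W.re < 0 ∨ 0 < W.im := by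
      rcases hw with h | h
      · left; rw [hWre]; linarith
      · right; rw [hWim]; linarith
    have hne : -W ≠ 0 := by
      intro h
      have : W = 0 := neg_eq_zero.mp h
      rw [this] at hW1
      simp at hW1
    set a : ℂ := exp ((log (-W) + Real.pi * I) / 3) with ha
    have him : ((log (-W) + Real.pi * I) / 3).im = (arg (-W) + Real.pi) / 3 := by
      have : (3 : ℂ) = ((3 : ℝ) : ℂ) := by norm_num
      rw [this, div_ofReal_im]
      simp [log_im]
    have harg1 : -Real.pi < arg (-W) := neg_pi_lt_arg _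
    have harg2 : arg (-W) < Real.pi / 2 := by
      rw [arg_lt_pi_div_two_iff]
      rcases hW1 with h | h
      · left; rw [neg_re]; linarith
      · right; left; rw [neg_im]; linarith
    have hcube : a ^ 3 = W := by
      rw [ha, ← exp_nat_mul]
      have : ((3 : ℕ) : ℂ) * ((log (-W) + Real.pi * I) / 3) = log (-W) + Real.pi * I := by
        push_cast; ring
      rw [this, exp_add, exp_log hne, exp_pi_mul_I]
      ring
    have hare : 0 < a.re := by
      rw [ha, exp_re, him]
      apply mul_pos (Real.exp_pos _)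
      apply Real.cos_pos_of_mem_Ioo
      constructor <;> linarith [Real.pi_pos]
    have haim : 0 < a.im := by
      rw [ha, exp_im, him]
      apply mul_pos (Real.exp_pos _)
      apply Real.sin_pos_of_pos_of_lt_pi
      · linarith
      · linarith [Real.pi_pos]
    refine ⟨gi (a ^ 2), by simpa using norm_gi_lt (sq_im hare haim), ?_⟩
    rw [f_gi hare haim, hcube, hW]
    ring

theorem g_hasDeriv {z : ℂ} (hz : ‖z‖ < 1) :
    HasDerivAt g (84 * I * (2 * u / (1 - u * z) ^ 2)) z := by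
  have h1 := one_sub_ne (norm_uz hz)
  have h2 : HasDerivAt (fun z : ℂ => 1 + u * z) (u * 1) z :=
    ((hasDerivAt_id' z).const_mul u).const_add 1
  have h3 : HasDerivAt (fun z : ℂ => 1 - u * z) (-(u * 1)) z :=
    ((hasDerivAt_id' z).const_mul u).const_sub 1
  have h4 := ((h2.div h3 h1).const_mul (84 * I)).const_add (-527 / 4 : ℂ)
  refine HasDerivAt.congr_deriv h4 ?_
  ring

theorem eta_hasDeriv {z : ℂ} (hz : ‖z‖ < 1) :
    HasDerivAt eta (84 * I * (2 * u / (1 - u * z) ^ 2) / (2 * eta z)) z := by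
  have h1 := (g_hasDeriv hz).cpow_const (c := (2⁻¹ : ℂ)) (g_slit hz)
  refine HasDerivAt.congr_deriv h1 ?_
  have h0 : g z ≠ 0 := slitPlane_ne_zero (g_slit hz)
  have he : eta z ≠ 0 := by
    intro h
    have := eta_re hz
    rw [h] at this
    simp at this
  rw [cpow_sub _ _ h0, cpow_one]
  have h2 : (g z) ^ (2⁻¹ : ℂ) = eta z := rfl
  rw [h2, ← eta_sq]
  field_simp

theorem f_diff : DifferentiableOn ℂ f (ball 0 1) := by
  intro z hz
  have hz' : ‖z‖ < 1 := by simpa using hz
  have h := (((eta_hasDeriv hz').pow 3).const_add w0).div_const 3150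
  exact h.differentiableAt.differentiableWithinAt

theorem eta_zero : eta 0 = ⟨7 / 2, 12⟩ := by
  apply sq_inj (eta_re (by simp)) (by simp)
  rw [eta_sq]
  unfold g
  apply Complex.ext
  · simp [pow_two]; norm_num
  · simp [pow_two]; norm_num

theorem f_zero : f 0 = 0 := by
  unfold f
  rw [eta_zero]
  have : w0 + (⟨7 / 2, 12⟩ : ℂ) ^ 3 = 0 := by
    apply Complex.ext
    · simp [pow_succ, w0]; norm_num
    · simp [pow_succ, w0]; norm_num
  rw [this]; simp

theorem f_deriv : deriv f 0 = 1 := by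
  have h := (((eta_hasDeriv (z := 0) (by simp)).pow 3).const_add w0).div_const 3150
  have h1 : HasDerivAt f _ 0 := h
  rw [h1.deriv]
  have he : eta 0 ≠ 0 := by
    rw [eta_zero]
    intro h
    have := congrArg Complex.re h
    norm_num at this
  have h2 : ((3 : ℕ) : ℂ) * eta 0 ^ (3 - 1) * (84 * I * (2 * u / (1 - u * 0) ^ 2) / (2 * eta 0)) / 3150
      = 252 * I * u * eta 0 / 3150 := by
    rw [show (3 - 1 : ℕ) = 2 from rfl]
    push_cast
    field_simp
    ring
  rw [h2, eta_zero]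
  unfold u
  apply Complex.ext
  · have : (3150 : ℂ) = ((3150 : ℝ) : ℂ) := by norm_num
    rw [this, div_ofReal_re]
    simp
    norm_num
  · have : (3150 : ℂ) = ((3150 : ℝ) : ℂ) := by norm_num
    rw [this, div_ofReal_im]
    simp
    norm_num

theorem cia_Om : CIA Om := by
  intro c
  by_cases h : c * 3150 < 11753 / 8
  · have : Om ∩ {w : ℂ | w.re = c} = {w : ℂ | w.re = c} := by
      ext w
      simp only [Om, mem_inter_iff, mem_ofPred_eq, and_iff_right_iff_imp]
      rintro rfl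
      exact Or.inl h
    rw [this]
    apply Convex.isPreconnected
    exact convex_hyperplane (IsLinearMap.mk (fun x y => add_re x y) (fun a x => by simp)) c
  · have : Om ∩ {w : ℂ | w.re = c} = {w : ℂ | w.re = c} ∩ {w : ℂ | 1287 / 3150 < w.im} := by
      ext w
      simp only [Om, mem_inter_iff, mem_ofPred_eq]
      constructor
      · rintro ⟨h1 | h1, h2⟩
        · rw [h2] at h1; exact absurd h1 h
        · exact ⟨h2, by rw [div_lt_iff₀ (by norm_num)]; exact h1⟩
      · rintro ⟨h2, h1⟩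
        rw [div_lt_iff₀ (by norm_num)] at h1
        exact ⟨Or.inr h1, h2⟩
    rw [this]
    apply Convex.isPreconnected
    apply Convex.inter
    · exact convex_hyperplane (IsLinearMap.mk (fun x y => add_re x y) (fun a x => by simp)) c
    · exact convex_halfSpace_im_gt _

theorem slit_Om : SlitCondition Om := by
  intro w hw
  obtain ⟨hw1, hw2⟩ := hw
  have hw2' : w.im ≠ 0 := hw2
  -- it suffices to find a preconnected set containing `w` and small points near `0`
  have key : ∀ P : Set ℂ, IsPreconnected P → P ⊆ Om \ {w : ℂ | w.im = 0} → w ∈ P →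
      (0 : ℂ) ∈ closure P →
      (0 : ℂ) ∈ frontier (connectedComponentIn (Om \ {w : ℂ | w.im = 0}) w) := by
    intro P hP hPs hwP h0
    have h1 : P ⊆ connectedComponentIn (Om \ {w : ℂ | w.im = 0}) w :=
      hP.subset_connectedComponentIn hwP hPs
    refine ⟨closure_mono h1 h0, ?_⟩
    intro h2
    have h3 := interior_subset h2
    have h4 := connectedComponentIn_subset _ _ h3
    exact h4.2 rfl
  rcases lt_or_gt_of_ne hw2' with h | h
  · -- lower part
    refine key ({w : ℂ | w.re < 11753 / 8 / 3150} ∩ {w : ℂ | w.im < 0}) ?_ ?_ ?_ ?_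
    · exact ((convex_halfSpace_re_lt _).inter (convex_halfSpace_im_lt _)).isPreconnected
    · rintro x ⟨h1, h2⟩
      have h1' : x.re < 11753 / 8 / 3150 := h1
      rw [lt_div_iff₀ (by norm_num)] at h1'
      exact ⟨Or.inl h1', (ne_of_lt h2 : x.im ≠ 0)⟩
    · rcases hw1 with h1 | h1
      · refine ⟨?_, h⟩
        show w.re < 11753 / 8 / 3150
        rw [lt_div_iff₀ (by norm_num)]
        exact h1
      · exfalso; linarith
    · rw [Metric.mem_closure_iff]
      intro ε hε
      refine ⟨⟨0, -(ε / 2)⟩, ⟨by simp, by simpa using hε⟩, ?_⟩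
      rw [dist_eq_norm, zero_sub, norm_neg]
      have : (⟨0, -(ε / 2)⟩ : ℂ) = ((-(ε / 2) : ℝ) : ℂ) * I := by
        apply Complex.ext <;> simp
      rw [this, norm_mul, norm_I, mul_one, norm_real, Real.norm_eq_abs, abs_neg,
        abs_of_pos (by linarith)]
      linarith
  · refine key (({w : ℂ | w.re < 11753 / 8 / 3150} ∩ {w : ℂ | 0 < w.im}) ∪
      {w : ℂ | 1287 / 3150 < w.im}) ?_ ?_ ?_ ?_
    · apply IsPreconnected.union (⟨0, 1⟩ : ℂ)
      · constructor
        · simp
        · simp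
      · show (1287 / 3150 : ℝ) < 1
        norm_num
      · exact ((convex_halfSpace_re_lt _).inter (convex_halfSpace_im_gt _)).isPreconnected
      · exact (convex_halfSpace_im_gt _).isPreconnected
    · rintro x (⟨h1, h2⟩ | h1)
      · have h1' : x.re < 11753 / 8 / 3150 := h1
        rw [lt_div_iff₀ (by norm_num)] at h1'
        exact ⟨Or.inl h1', (ne_of_gt h2 : x.im ≠ 0)⟩
      · have h1' : 1287 / 3150 < x.im := h1
        have h2 : x.im ≠ 0 := by
          intro h3
          rw [h3] at h1'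
          norm_num at h1'
        rw [div_lt_iff₀ (by norm_num)] at h1'
        exact ⟨Or.inr h1', h2⟩
    · rcases hw1 with h1 | h1
      · left
        refine ⟨?_, h⟩
        show w.re < 11753 / 8 / 3150
        rw [lt_div_iff₀ (by norm_num)]
        exact h1
      · right
        show 1287 / 3150 < w.im
        rw [div_lt_iff₀ (by norm_num)]
        exact h1
    · rw [Metric.mem_closure_iff]
      intro ε hε
      refine ⟨⟨0, ε / 2⟩, Or.inl ⟨by simp, by simpa using hε⟩, ?_⟩
      rw [dist_eq_norm, zero_sub, norm_neg]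
      have : (⟨0, ε / 2⟩ : ℂ) = ((ε / 2 : ℝ) : ℂ) * I := by
        apply Complex.ext <;> simp
      rw [this, norm_mul, norm_I, mul_one, norm_real, Real.norm_eq_abs,
        abs_of_pos (by linarith)]
      linarith

/-- The preimages of the points of the vertical line. -/
theorem norm_pt (p q : ℝ) : ‖gi ((⟨p, q⟩ : ℂ) ^ 2)‖ ^ 2 =
    ((p ^ 2 - q ^ 2 + 527 / 4) ^ 2 + (2 * p * q - 84) ^ 2) /
      ((p ^ 2 - q ^ 2 + 527 / 4) ^ 2 + (2 * p * q + 84) ^ 2) := by
  rw [norm_gi_sq]
  have h1 : ((⟨p, q⟩ : ℂ) ^ 2).re = p ^ 2 - q ^ 2 := by rw [pow_two, mul_re]; ring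
  have h2 : ((⟨p, q⟩ : ℂ) ^ 2).im = 2 * p * q := by rw [pow_two, mul_im]; ring
  rw [h1, h2]

theorem f_pt {p q : ℝ} (hp : 0 < p) (hq : 0 < q) (h : p ^ 3 - 3 * p * q ^ 2 = -299) :
    f (gi ((⟨p, q⟩ : ℂ) ^ 2)) = ⟨(11753 / 8 - 299) / 3150, (1287 + (3 * p ^ 2 * q - q ^ 3)) / 3150⟩ := by
  rw [f_gi (a := ⟨p, q⟩) hp hq]
  have : (3150 : ℂ) = ((3150 : ℝ) : ℂ) := by norm_num
  have e1 : ((⟨p, q⟩ : ℂ) ^ 3).re = -299 := by
    rw [← h]; simp only [pow_succ, pow_zero, one_mul, mul_re, mul_im]; ring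
  have e2 : ((⟨p, q⟩ : ℂ) ^ 3).im = 3 * p ^ 2 * q - q ^ 3 := by
    simp only [pow_succ, pow_zero, one_mul, mul_re, mul_im]; ring
  apply Complex.ext
  · rw [this, div_ofReal_re, add_re, e1]
    simp only [w0]
    ring
  · rw [this, div_ofReal_im, add_im, e2]
    simp only [w0]

theorem not_cia : ¬ CIA (f '' ball 0 (57 / 80)) := by
  intro hC
  have hconn := hC ((11753 / 8 - 299) / 3150)
  have him : IsPreconnected (Complex.im '' (f '' ball 0 (57 / 80) ∩
      {w : ℂ | w.re = (11753 / 8 - 299) / 3150})) :=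
    hconn.image _ continuous_im.continuousOn
  have hord := him.ordConnected
  have hball : ∀ z : ℂ, ‖z‖ ^ 2 < (57 / 80) ^ 2 → z ∈ ball (0 : ℂ) (57 / 80) := by
    intro z hz
    rw [mem_ball_zero_iff]
    exact lt_of_pow_lt_pow_left₀ 2 (by norm_num) hz
  have m1 : (1287 + (3 * (1 : ℝ) ^ 2 * 10 - 10 ^ 3)) / 3150 ∈ Complex.im '' (f '' ball 0 (57 / 80) ∩
      {w : ℂ | w.re = (11753 / 8 - 299) / 3150}) := by
    refine ⟨f (gi ((⟨1, 10⟩ : ℂ) ^ 2)), ⟨⟨_, hball _ ?_, rfl⟩, ?_⟩, ?_⟩
    · rw [norm_pt]; norm_num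
    · rw [f_pt (by norm_num) (by norm_num) (by norm_num)]; rfl
    · rw [f_pt (by norm_num) (by norm_num) (by norm_num)]
  have m3 : (1287 + (3 * (13 : ℝ) ^ 2 * 8 - 8 ^ 3)) / 3150 ∈ Complex.im '' (f '' ball 0 (57 / 80) ∩
      {w : ℂ | w.re = (11753 / 8 - 299) / 3150}) := by
    refine ⟨f (gi ((⟨13, 8⟩ : ℂ) ^ 2)), ⟨⟨_, hball _ ?_, rfl⟩, ?_⟩, ?_⟩
    · rw [norm_pt]; norm_num
    · rw [f_pt (by norm_num) (by norm_num) (by norm_num)]; rfl
    · rw [f_pt (by norm_num) (by norm_num) (by norm_num)]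
  have m2 := hord.out m1 m3 (show (1287 + (3 * (4 : ℝ) ^ 2 * (11 / 2) - (11 / 2) ^ 3)) / 3150 ∈ _ by
    constructor <;> norm_num)
  obtain ⟨w, ⟨⟨z, hz, hzw⟩, hre⟩, him2⟩ := m2
  have hw : w = f (gi ((⟨4, 11 / 2⟩ : ℂ) ^ 2)) := by
    rw [f_pt (by norm_num) (by norm_num) (by norm_num)]
    apply Complex.ext
    · exact hre
    · exact him2
  have hz1 : ‖z‖ < 57 / 80 := by simpa using hz
  have hz2 : z = gi ((⟨4, 11 / 2⟩ : ℂ) ^ 2) := by
    apply f_inj
    · rw [mem_ball_zero_iff]; linarith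
    · rw [mem_ball_zero_iff]
      exact norm_gi_lt (sq_im (by norm_num) (by norm_num))
    · rw [hzw, hw]
  have h3 := norm_pt 4 (11 / 2)
  rw [← hz2] at h3
  have h4 : ‖z‖ ^ 2 < (57 / 80) ^ 2 := by
    have : 0 ≤ ‖z‖ := norm_nonneg _
    nlinarith
  rw [h3] at h4
  norm_num at h4

/-- There is a normalised univalent `f` such that `G_1 = f(D)` is convex in the direction of the
imaginary axis and satisfies the slit condition, but `G_r` is not convex in the direction of the
imaginary axis for some `r` in `(0, 1)`. -/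
theorem result : ∃ f : ℂ → ℂ,
    (DifferentiableOn ℂ f (ball 0 1) ∧ InjOn f (ball 0 1) ∧ f 0 = 0 ∧ deriv f 0 = 1) ∧
    CIA (f '' ball 0 1) ∧ SlitCondition (f '' ball 0 1) ∧
    ∃ r : ℝ, 0 < r ∧ r < 1 ∧ ¬ CIA (f '' ball 0 r) := by
  refine ⟨f, ⟨f_diff, f_inj, f_zero, f_deriv⟩, ?_, ?_, 57 / 80, by norm_num, by norm_num, not_cia⟩
  · rw [image_f]; exact cia_Om
  · rw [image_f]; exact slit_Om

end Pool.Agent.Results.MP_d2819f_an.SubdiscNotCIA
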